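import Mathlib
import Pool.Agent.H5.Prox

set_option autoImplicit false

namespace Pool.Agent.Results.MP_24ecc9_an.No

open Set Filter Topology unitInterval Metric
open scoped ENNReal

/-- normal fuzzy sets: upper semicontinuous, attaining `1`, with compact closed support -/
def IsFuzzy {X : Type} [TopologicalSpace X] (u : X → I) : Prop :=
  UpperSemicontinuous u ∧ (∃ x, u x = 1) ∧ IsCompact (closure {x | 0 < u x})

/-- Zadeh extension: `y ↦ sup {u x : f x = y}` (the supremum of the empty set is `0`) -/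
noncomputable def zadeh {A B : Type} (f : A → B) (u : A → I) : B → I :=
  fun y => sSup (u '' {x | f x = y})

/-- the endograph -/
def endo {X : Type} (u : X → I) : Set (X × I) := {p | p.2 ≤ u p.1}

/-- the endograph distance (Hausdorff distance in `X × [0,1]` with the max metric) -/
noncomputable def dE {X : Type} [MetricSpace X] (u v : X → I) : ℝ≥0∞ :=
  hausdorffEDist (endo u) (endo v)

/-- `g` acting on `S` with the distance `ρ` has a dense proximal relation -/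
def DenseProx {Y : Type} (S : Set Y) (ρ : Y → Y → ℝ≥0∞) (g : Y → Y) : Prop :=
  ∀ y ∈ S, ∀ z ∈ S, ∀ ε > 0, ∃ y' ∈ S, ∃ z' ∈ S, max (ρ y y') (ρ z z') < ε ∧
    liminf (fun n => ρ (g^[n] y') (g^[n] z')) atTop = 0

theorem lt_zadeh {A B : Type} {f : A → B} {u : A → I} {y : B} {t : I} :
    t < zadeh f u y ↔ ∃ x, f x = y ∧ t < u x := by
  simp [zadeh, lt_sSup_iff]

theorem le_zadeh {A B : Type} (f : A → B) (u : A → I) (x : A) : u x ≤ zadeh f u (f x) :=
  le_sSup ⟨x, rfl, rfl⟩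

theorem zadeh_comp {A B C : Type} (f : A → B) (g : B → C) (u : A → I) :
    zadeh g (zadeh f u) = zadeh (g ∘ f) u := by
  funext z
  refine eq_of_forall_lt_iff fun t => ?_
  simp only [lt_zadeh]
  exact ⟨fun ⟨_, h, x, h1, h2⟩ => ⟨x, by rw [Function.comp, h1, h], h2⟩,
    fun ⟨x, h1, h2⟩ => ⟨f x, h1, x, rfl, h2⟩⟩

theorem zadeh_iter {A B : Type} (π : A → B) (f : B → B) (u : A → I) (n : ℕ) :
    (zadeh f)^[n] (zadeh π u) = zadeh (f^[n] ∘ π) u := by
  induction n with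
  | zero => rfl
  | succ n ih => rw [Function.iterate_succ_apply', ih, zadeh_comp, Function.iterate_succ']; rfl

theorem zadeh_id {A : Type} (u : A → I) : zadeh id u = u := by
  funext z
  simp [zadeh]

theorem fuzzy_zadeh {S X : Type} [TopologicalSpace S] [CompactSpace S] [MetricSpace X]
    {π : S → X} (hπ : Continuous π) {l : S → I} (hl : UpperSemicontinuous l) (h1 : ∃ s, l s = 1) :
    IsFuzzy (zadeh π l) := by
  refine ⟨upperSemicontinuous_iff_isClosed_preimage.2 fun t => ?_, ?_, ?_⟩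
  · rcases eq_or_lt_of_le (nonneg' (t := t)) with rfl | ht
    · convert isClosed_univ
      exact eq_univ_of_forall fun y => nonneg'
    convert ((hl.isClosed_preimage t).isCompact.image hπ).isClosed
    refine Subset.antisymm (fun y hy => ?_) ?_
    · obtain ⟨s, hs, -⟩ := lt_zadeh.1 (ht.trans_le hy)
      obtain ⟨s', h2, h3⟩ := (hl.upperSemicontinuousOn {s | π s = y}).exists_isMaxOn ⟨s, hs⟩
        (isClosed_eq hπ continuous_const).isCompact
      refine ⟨s', show t ≤ l s' from le_trans (show t ≤ zadeh π l y from hy) (sSup_le ?_), h2⟩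
      rintro _ ⟨a, ha, rfl⟩
      exact h3 ha
    · rintro _ ⟨s, hs, rfl⟩
      exact le_trans (show t ≤ l s from hs) (le_zadeh π l s)
  · obtain ⟨s, hs⟩ := h1
    exact ⟨π s, le_antisymm le_one' (hs ▸ le_zadeh π l s)⟩
  · refine (isCompact_range hπ).closure_of_subset fun y hy => ?_
    obtain ⟨s, hs, -⟩ := lt_zadeh.1 hy
    exact ⟨s, hs⟩

theorem half {S S' X : Type} [MetricSpace X] {π : S → X} {π' : S' → X} {l : S → I} {l' : S' → I}
    {ε : ℝ} (hε : 0 < ε) (h : ∀ s, 0 < l s → ∃ s', dist (π s) (π' s') ≤ ε ∧ (l s : ℝ) ≤ l' s' + ε) :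
    ∀ p ∈ endo (zadeh π l), ∃ q ∈ endo (zadeh π' l'), edist p q ≤ ENNReal.ofReal (2 * ε) := by
  rintro ⟨y, t⟩ hp
  simp only [edist_le_ofReal (by positivity : 0 ≤ 2 * ε), Prod.dist_eq, max_le_iff]
  by_cases ht : (t : ℝ) ≤ ε
  · refine ⟨(y, 0), nonneg', by rw [dist_self]; positivity, ?_⟩
    rw [Subtype.dist_eq, Real.dist_eq]
    simp only [Icc.coe_zero, sub_zero, abs_of_nonneg t.2.1]
    linarith
  · push Not at ht
    have h1 : (⟨t - ε, by linarith, by linarith [t.2.2]⟩ : I) < zadeh π l y :=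
      lt_of_lt_of_le (Subtype.mk_lt_mk.2 (by linarith)) hp
    obtain ⟨s, rfl, h2⟩ := lt_zadeh.1 h1
    have h3 : t - ε < (l s : ℝ) := h2
    obtain ⟨s', h4, h5⟩ := h s (show (0 : ℝ) < l s by linarith)
    refine ⟨(π' s', min t (l' s')), (min_le_right _ _).trans (le_zadeh π' l' s'), by linarith, ?_⟩
    rw [Subtype.dist_eq, Real.dist_eq]
    rcases le_total t (l' s') with h6 | h6
    · simp only [min_eq_left h6, sub_self, abs_zero]
      positivity
    · have h7 : (l' s' : ℝ) ≤ t := h6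
      simp only [min_eq_right h6]
      rw [abs_of_nonneg (by linarith)]
      linarith

theorem dE_le {S S' X : Type} [MetricSpace X] {π : S → X} {π' : S' → X} {l : S → I} {l' : S' → I}
    {ε : ℝ} (hε : 0 < ε) (h : ∀ s, 0 < l s → ∃ s', dist (π s) (π' s') ≤ ε ∧ (l s : ℝ) ≤ l' s' + ε)
    (h' : ∀ s', 0 < l' s' → ∃ s, dist (π' s') (π s) ≤ ε ∧ (l' s' : ℝ) ≤ l s + ε) :
    dE (zadeh π l) (zadeh π' l') ≤ ENNReal.ofReal (2 * ε) :=
  hausdorffEDist_le_of_mem_edist (half hε h) (half hε h')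

theorem small {ε : ℝ≥0∞} (hε : 0 < ε) : ∃ δ > 0, ENNReal.ofReal (2 * δ) < ε := by
  obtain ⟨r, -, h1, h2⟩ := ENNReal.lt_iff_exists_real_btwn.1 hε
  exact ⟨r / 2, half_pos (ENNReal.ofReal_pos.1 h1), by rwa [mul_div_cancel₀ _ two_ne_zero]⟩

open Pool.Agent.H5.Prox

theorem approx {u : X → I} (hu : IsFuzzy u) (r : ℕ) :
    ∃ (c : Bool) (S : Type) (w : S → X) (g : S → ℕ → D)
      (h : ∀ s, g s ∈ G (r + 1) (colr (w s))) (l : S → I),
      IsFuzzy (zadeh (fun s => glue r (w s) (g s) (h s)) l) ∧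
      dE u (zadeh (fun s => glue r (w s) (g s) (h s)) l) ≤ ENNReal.ofReal (2 * (1 / 2) ^ r) ∧
      (∀ s, l s ≤ lev (colr (w s)) (g s)) ∧
      ∀ g' ∈ G (r + 1) c, ∃ s, g s = g' ∧ l s = lev c g' := by
  obtain ⟨p, hp⟩ := hu.2.1
  obtain ⟨S, _, _, w, g, h, l, h1, h2, h3, h4, h5, h6⟩ := family r hu.2.2 hu.1 (p := p)
  have h0 : (0 : ℝ) < (1 / 2) ^ r := by positivity
  refine ⟨colr p, S, w, g, h, l, fuzzy_zadeh h1 h2 ?_, ?_, h3, h6⟩
  · exact (h6 _ (base_mem _ _)).imp fun s hs => hs.2.trans (lev_base _ _)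
  · nth_rewrite 1 [← zadeh_id u]
    refine dE_le h0 (fun x hx => ?_) fun s _ => ⟨w s, dist_glue _ _ _ _, ?_⟩
    · obtain ⟨s, rfl, hs⟩ := h4 x (subset_closure hx)
      exact ⟨s, by rw [dist_comm]; exact dist_glue _ _ _ _, by rw [hs]; linarith⟩
    · rcases h5 s with e | ⟨-, e⟩
      · rw [e, hp]
        linarith [(l s).2.2, Icc.coe_one (R := ℝ)]
      · rw [e]; linarith

theorem result : ∃ (X : Type) (_ : MetricSpace X) (f : X → X), Continuous f ∧
    DenseProx {u : X → I | IsFuzzy u} dE (zadeh f) ∧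
    ¬ DenseProx {K : Set X | IsCompact K ∧ K.Nonempty} hausdorffEDist (image f) := by
  refine ⟨X, inferInstance, f, cont_f, fun u hu v hv ε hε => ?_, fun h => ?_⟩
  · obtain ⟨δ, hδ, h0⟩ := small hε
    obtain ⟨r, hr⟩ := exists_pow_lt_of_lt_one hδ (by norm_num : (1 / 2 : ℝ) < 1)
    have h0' : ENNReal.ofReal (2 * (1 / 2) ^ r) < ε :=
      (ENNReal.ofReal_le_ofReal (by linarith)).trans_lt h0
    obtain ⟨c, S, w, g, h, l, h1, h2, h3, h4⟩ := approx hu r
    obtain ⟨c', S', w', g', h', l', h1', h2', h3', h4'⟩ := approx hv r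
    refine ⟨_, h1, _, h1', max_lt (h2.trans_lt h0') (h2'.trans_lt h0'),
      le_antisymm (le_of_forall_gt_imp_ge_of_dense fun η hη => ?_) zero_le⟩
    obtain ⟨θ, hθ, h5⟩ := small hη
    refine liminf_le_of_frequently_le' (frequently_atTop.2 fun N => ?_)
    obtain ⟨a, ha⟩ := exists_pow_lt_of_lt_one hθ (by norm_num : (1 / 2 : ℝ) < 1)
    obtain ⟨b, hb⟩ := exists_nat_one_div_lt hθ
    set j := Nat.pair (r + 1) (N + a + b) with hj
    have h6 : N + a + b ≤ j := Nat.right_le_pair _ _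
    have h7 : r + 1 ≤ j := Nat.left_le_pair _ _
    have h8 : (Nat.unpair j).1 = r + 1 := by rw [hj, Nat.unpair_pair]
    have h9 : (1 / 2 : ℝ) ^ j ≤ θ :=
      (pow_le_pow_of_le_one (by norm_num) (by norm_num) (by omega)).trans ha.le
    have h10 : (1 : ℝ) / (j + 1) ≤ θ := (Nat.one_div_le_one_div (by omega)).trans hb.le
    refine ⟨j * j, by nlinarith, le_trans ?_ h5.le⟩
    rw [zadeh_iter, zadeh_iter]
    refine dE_le hθ (fun s hs => ?_) fun s hs => ?_
    · obtain ⟨k, hk, e, h11⟩ := matching h8 c' (h s) (hs.trans_le (h3 s))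
      obtain ⟨s', rfl, e'⟩ := h4' k hk
      have : (l s : ℝ) ≤ lev (colr (w s)) (g s) := h3 s
      exact ⟨s', (dist_iter _ _ h7 e.symm).trans h9, by rw [e']; linarith⟩
    · obtain ⟨k, hk, e, h11⟩ := matching h8 c (h' s) (hs.trans_le (h3' s))
      obtain ⟨s', rfl, e'⟩ := h4 k hk
      have : (l' s : ℝ) ≤ lev (colr (w' s)) (g' s) := h3' s
      exact ⟨s', (dist_iter _ _ h7 e.symm).trans h9, by rw [e']; linarith⟩
  · obtain ⟨A, hA, B, hB, h1, h2⟩ := h {pt false} ⟨isCompact_singleton, singleton_nonempty _⟩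
      {pt true} ⟨isCompact_singleton, singleton_nonempty _⟩ 1 one_pos
    have key : ∀ {A B : Set X}, hausdorffEDist A B < 1 → ∀ x ∈ A, ∃ y ∈ B, x.1 0 = y.1 0 := by
      intro A B h x hx
      obtain ⟨y, hy, h'⟩ := exists_edist_lt_of_hausdorffEDist_lt hx h
      exact ⟨y, hy, eq_of_dist (by rwa [edist_dist, ENNReal.ofReal_lt_one] at h')⟩
    rw [max_lt_iff, hausdorffEDist_comm, hausdorffEDist_comm (t := B)] at h1
    refine block (Z := fun c => if c then B else A) (by rintro (_ | _); exacts [hA.1, hB.1]) hA.2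
      ?_ fun N => ?_
    · rintro (_ | _) x hx
      · obtain ⟨_, rfl, e⟩ := key h1.1 x hx
        rw [e]; rfl
      · obtain ⟨_, rfl, e⟩ := key h1.2 x hx
        rw [e]; rfl
    · obtain ⟨n, hn, h3⟩ := frequently_atTop.1
        (frequently_lt_of_liminf_lt (h := h2.trans_lt zero_lt_one)) (N + 1)
      obtain ⟨m, rfl⟩ : ∃ m, n = m + 1 := ⟨n - 1, by omega⟩
      rw [← image_iterate_eq] at h3
      refine ⟨m + 1, by omega, ?_⟩
      rintro (_ | _) x hx
      · obtain ⟨_, ⟨y, hy, rfl⟩, e⟩ := key h3 _ ⟨x, hx, rfl⟩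
        rw [iter_f, iter_f, zero_add] at e
        exact ⟨y, hy, (E.mk.inj e).2⟩
      · obtain ⟨_, ⟨y, hy, rfl⟩, e⟩ := key (hausdorffEDist_comm.trans_lt h3) _ ⟨x, hx, rfl⟩
        rw [iter_f, iter_f, zero_add] at e
        exact ⟨y, hy, (E.mk.inj e).2⟩

end Pool.Agent.Results.MP_24ecc9_an.No
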